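import Pool.Agent.Lib.helper27.EnergyCert

set_option autoImplicit false

namespace Pool.Agent.Results.MP_8ce0fa_co.Counter

open Matrix Finset Pool.Agent.Lib.helper27.EnergyCert

open Classical in
noncomputable def energy {V : Type} [Fintype V] (G : SimpleGraph V) : ℝ :=
  ((G.adjMatrix ℝ).charpoly.roots.map fun x => |x|).sum

def subdiv {V : Type} (G : SimpleGraph V) (i j : V) : SimpleGraph (Option V) :=
  SimpleGraph.fromRel fun x y => match x, y with
    | some a, some b => G.Adj a b ∧ s(a, b) ≠ s(i, j)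
    | none, some b => b = i ∨ b = j
    | _, none => False

def nb : List ℕ := [1174, 1237, 1947, 1844, 1455, 2008, 1698, 1911, 700, 1516, 767]

def G : SimpleGraph (Fin 11) where
  Adj a b := (nb.getD a 0).testBit b
  symm := ⟨by decide +kernel⟩
  loopless := ⟨by decide +kernel⟩

instance : DecidableRel G.Adj := fun _ _ => inferInstanceAs (Decidable (_ = true))

def ql : List (List ℤ) :=
  [[-3892, 5294, 3810, -1091, 3810, -2604, -1121, 2297, -1091, -2604, 2297],
   [5294, -3904, 2117, -2604, 2117, -1284, 2693, 3437, -2604, -1284, 3437],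
   [3810, 2117, -1173, 974, 727, -4216, -2826, 3636, 4897, 3882, -287],
   [-1091, -2604, 974, -3382, 4897, 4867, -2633, -774, 4716, 945, 1126],
   [3810, 2117, 727, 4897, -1173, 3882, -2826, -287, 974, -4216, 3636],
   [-2604, -1284, -4216, 4867, 3882, -819, 4013, 96, 945, 1081, 4019],
   [-1121, 2693, -2826, -2633, -2826, 4013, -466, 3820, -2633, 4013, 3820],
   [2297, 3437, 3636, -774, -287, 96, 3820, -5492, 1126, 4019, 2606],
   [-1091, -2604, 4897, 4716, 974, 945, -2633, 1126, -3382, 4867, -774],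
   [-2604, -1284, 3882, 945, -4216, 1081, 4013, 4019, 4867, -819, 96],
   [2297, 3437, -287, 1126, 3636, 4019, 3820, 2606, -774, 96, -5492]]

def xl : List (List ℤ) :=
  [[7940, 8988, -4418, 1761, -4418, 2809, -2872, -3369, 1761, 2809, -3369, -6179],
   [-3659, 1798, -1457, -2558, -1457, 2899, -9224, 3999, -2558, 2899, 3999, 1101],
   [5581, 6433, 8988, 7284, 8988, 8136, 6010, 9840, 7284, 8136, 9840, 1703],
   [-6030, -6030, -1508, 4523, -1508, 4523, 0, -1508, 4523, 4523, -1508, -6030],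
   [0, 0, -7514, 6231, 2036, -7514, 0, 6231, -754, 2036, -754, 0],
   [0, 0, 0, 0, 0, 0, 0, 0, 0, 0, 0, 0],
   [-2986, 2504, -3686, -3336, -3686, 2154, 7564, 1804, -3336, 2154, 1804, -350],
   [0, 0, 3922, 5953, -5402, 3922, 0, 5953, -4472, -5402, -4472, 0],
   [0, 0, 0, 0, 0, 0, 0, 0, 0, 0, 0, 0],
   [0, 0, 0, 0, 0, 0, 0, 0, 0, 0, 0, 0],
   [0, 0, -1779, 857, -6455, -1779, 0, 857, 7378, -6455, 7378, 0],
   [0, 0, 0, 0, 0, 0, 0, 0, 0, 0, 0, 0]]

def ix (o : Option (Fin 11)) : ℕ := o.elim 11 (·.val)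

def M' (x y : Option (Fin 11)) : ℤ :=
  if ([3220, 3284, 1947, 1844, 1455, 2008, 1698, 1911, 700, 1516, 767, 3].getD (ix x) 0).testBit
    (ix y) then 1 else 0

theorem en {V : Type} [Fintype V] [d : DecidableEq V] (H : SimpleGraph V) :
    ∃ (A : Matrix V V ℝ) (h : A.IsHermitian), energy H = ∑ i, |h.eigenvalues i| ∧
      ∀ a b, (H.Adj a b → A a b = 1) ∧ (¬ H.Adj a b → A a b = 0) := by
  obtain rfl : d = fun a b => Classical.propDecidable (a = b) := Subsingleton.elim _ _
  classical
  have h : (H.adjMatrix ℝ).IsHermitian := isHermitian_iff_isSymm.mpr H.isSymm_adjMatrix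
  refine ⟨_, h, ?_, fun a b => ⟨fun e => by simp [e], fun e => by simp [e]⟩⟩
  exact (@roots_sum V _ (fun a b => Classical.propDecidable (a = b)) _ h)

theorem result : ∃ (n : ℕ) (G : SimpleGraph (Fin n)) (i j : Fin n), G.Connected ∧ G.Adj i j ∧
    energy (subdiv G i j) < energy G ∧
    (¬ ∃ a b, a ≠ b ∧ G.Adj i a ∧ G.Adj j a ∧ G.Adj i b ∧ G.Adj j b ∧ ¬ G.Adj a b) ∧
    insert i (G.neighborSet i) ≠ insert j (G.neighborSet j) := by
  refine ⟨11, G, 0, 1, by decide +kernel, by decide, ?_, by decide +kernel, fun h => ?_⟩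
  · obtain ⟨A, hA, e1, a1⟩ := en G
    obtain ⟨B, hB, e2, a2⟩ := en (subdiv G 0 1)
    have l := lower hA (fun a b => if G.Adj a b then 1 else 0)
      (fun a b => (ql.getD a []).getD b 0) 10000 (by decide)
      (fun a b => by split_ifs with h; exacts [by simp [(a1 a b).1 h], by simp [(a1 a b).2 h]])
      (by decide +kernel)
    have k : ∀ a b, ((subdiv G 0 1).Adj a b → M' a b = 1) ∧
        (¬ (subdiv G 0 1).Adj a b → M' a b = 0) := by
      rintro (_ | a) (_ | b) <;> simp only [subdiv, SimpleGraph.fromRel_adj] <;>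
        decide +kernel +revert
    have u := upper hB M' (fun a b => (xl.getD (ix a) []).getD (ix b) 0)
      (fun a b => [-1, -1, 1, 1, -1, -1, 1, -1, 1, -1, -1, 1].getD (ix a) 0 *
        (xl.getD (ix a) []).getD (ix b) 0) 100000000
      (fun a b => by
        by_cases h : (subdiv G 0 1).Adj a b
        exacts [by simp [(a2 a b).1 h, (k a b).1 h], by simp [(a2 a b).2 h, (k a b).2 h]])
    rw [show (∑ a, ∑ b, _ : ℤ) = 208830 by decide +kernel] at l
    rw [show (∑ a, ∑ b, _ : ℤ) = 4173476104 by decide +kernel] at u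
    push_cast at l u
    rw [e1, e2]
    linarith
  · have : (6 : Fin 11) ∈ insert 0 (G.neighborSet 0) := h ▸ .inr (show G.Adj 1 6 by decide)
    rcases this with h | h
    exacts [absurd h (by decide), absurd (show G.Adj 0 6 from h) (by decide)]

end Pool.Agent.Results.MP_8ce0fa_co.Counter
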